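import Pool.Agent.H629.AccFinal

/-!
# Accessible graphs have no induced cycles of length at least six

A finite graph is accessible if its binomial edge ideal is unmixed (in terms of cut sets: the number
of components of `G - T` exceeds the number of components of `G` by `|T|` for each cut set `T`) and
its cut sets form an accessible set system. We show that an accessible graph has no induced cycle of
length six or more.

The completion of an accessible graph at a vertex (its neighbours are made pairwise adjacent) is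
accessible. Completions reduce a longer induced cycle to an induced cycle of length six, and then to
an induced four-cycle `a b c d` with simplicial vertices `s`, `t`, where `s` sees exactly `a`, `b`
and `t` sees exactly `b`, `c`. This configuration is excluded by counting the components left by
the minimal separators between `s` and `d`, `t` and `d`, `b` and `d`, `a` and `c`, and by their
unions.
-/

set_option autoImplicit false

namespace Pool.Agent.Results.MP_12e671_al.NoLongInducedCycle

/-- `c_G(T)`: the number of connected components of the subgraph induced on the complement of `T`. -/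
noncomputable def compCount {V : Type*} (G : SimpleGraph V) (T : Set V) : ℕ :=
  Nat.card (G.induce Tᶜ).ConnectedComponent

/-- `T` is a cut set: `c_G(T \ {i}) < c_G(T)` for each `i` in `T`. -/
def IsCutSet {V : Type*} (G : SimpleGraph V) (T : Set V) : Prop :=
  ∀ i ∈ T, compCount G (T \ {i}) < compCount G T

/-- Unmixedness of the binomial edge ideal, in terms of cut sets. -/
def IsUnmixed {V : Type*} (G : SimpleGraph V) : Prop :=
  ∀ T, IsCutSet G T → compCount G T = T.ncard + compCount G ∅

/-- Accessible graphs. -/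
def IsAccessible {V : Type*} (G : SimpleGraph V) : Prop :=
  IsUnmixed G ∧ ∀ T, IsCutSet G T → T.Nonempty → ∃ t ∈ T, IsCutSet G (T \ {t})

open H629.AccG

section Translate

variable {V : Type*} {G : SimpleGraph V}

theorem mem_cl_iff {T : Set V} {x : V} (hx : x ∈ Tᶜ) (y : V) :
    y ∈ cl G T x ↔ ∃ h : y ∈ Tᶜ,
      (G.induce Tᶜ).connectedComponentMk ⟨y, h⟩ = (G.induce Tᶜ).connectedComponentMk ⟨x, hx⟩ := by
  constructor
  · intro h
    have h1 : cl G T x ⊆ {y | ∃ h : y ∈ Tᶜ, (G.induce Tᶜ).connectedComponentMk ⟨y, h⟩ =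
        (G.induce Tᶜ).connectedComponentMk ⟨x, hx⟩} := by
      refine cl_sub ?_ ⟨hx, rfl⟩
      rintro u ⟨hu, hux⟩ v ha hv
      refine ⟨hv, ?_⟩
      rw [← hux]
      refine SimpleGraph.ConnectedComponent.sound (SimpleGraph.Adj.reachable ?_)
      exact ha.symm
    exact h1 h
  · rintro ⟨h, he⟩
    have h1 : (G.induce Tᶜ).Reachable ⟨x, hx⟩ ⟨y, h⟩ :=
      (SimpleGraph.ConnectedComponent.exact he).symm
    obtain ⟨p⟩ := h1
    have key : ∀ (u v : (Tᶜ : Set V)), (G.induce Tᶜ).Walk u v → v.1 ∈ cl G T u.1 := by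
      intro u v p
      induction p with
      | nil => exact self_mem G T _
      | @cons u w v ha p ih =>
          exact cl_trans (cl_step (self_mem G T u.1) ha w.2) ih
    exact key _ _ p

theorem compCount_eq (T : Set V) : compCount G T = cc G T := by
  let φ : (G.induce Tᶜ).ConnectedComponent → Set V := fun C =>
    {y | ∃ h : y ∈ Tᶜ, (G.induce Tᶜ).connectedComponentMk ⟨y, h⟩ = C}
  have hφ : ∀ (x : V) (hx : x ∈ Tᶜ), φ ((G.induce Tᶜ).connectedComponentMk ⟨x, hx⟩) =
      cl G T x := by
    intro x hx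
    ext y
    exact (mem_cl_iff hx y).symm
  have hinj : Function.Injective φ := by
    intro C C' h
    induction C using SimpleGraph.ConnectedComponent.ind with
    | h x =>
      have h1 : (x : V) ∈ φ ((G.induce Tᶜ).connectedComponentMk x) := ⟨x.2, rfl⟩
      rw [h] at h1
      obtain ⟨h2, h3⟩ := h1
      exact h3
  have hrange : Set.range φ = comps G T := by
    ext K
    constructor
    · rintro ⟨C, rfl⟩
      induction C using SimpleGraph.ConnectedComponent.ind with
      | h x => exact ⟨x.1, x.2, hφ x.1 x.2⟩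
    · rintro ⟨x, hx, rfl⟩
      exact ⟨_, hφ x hx⟩
  unfold compCount cc
  rw [← hrange, ← Nat.card_range_of_injective hinj, Nat.card_coe_set_eq]

theorem isCutSet_iff (T : Set V) : IsCutSet G T ↔ IsCut G T := by
  unfold IsCutSet IsCut
  simp only [compCount_eq]

theorem isAccessible_acc (h : IsAccessible G) : H629.AccG.Acc G where
  unm := by
    intro T hT
    have := h.1 T ((isCutSet_iff T).2 hT)
    rwa [compCount_eq, compCount_eq] at this
  acc := by
    intro T hT hne
    obtain ⟨t, ht, ht'⟩ := h.2 T ((isCutSet_iff T).2 hT) hne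
    exact ⟨t, ht, (isCutSet_iff _).1 ht'⟩

end Translate

section Cycles

variable {V : Type*} {G : SimpleGraph V}

theorem no_CB' [Finite V] {a b c d s t : V} (h : CB G a b c d s t) (hA : H629.AccG.Acc G) :
    False := by
  let S : Set (SimpleGraph V) := {G' | CB G' a b c d s t ∧ H629.AccG.Acc G'}
  obtain ⟨G', hG'⟩ := Set.Finite.exists_maximal (s := S) (Set.toFinite S) ⟨G, h, hA⟩
  refine no_CB hG'.prop.1 hG'.prop.2 ?_
  intro w hw
  have h1 : Cp G' w ∈ S := ⟨hw, hG'.prop.2.completion w⟩
  exact le_antisymm (hG'.le_of_ge h1 (le_Cp G' w)) (le_Cp G' w)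

/-- the first `m` values of `f` form an induced cycle -/
structure IC (G : SimpleGraph V) (m : ℕ) (f : ℕ → V) : Prop where
  inj : ∀ i j, i < m → j < m → f i = f j → i = j
  adj : ∀ i j, i < j → j < m → (G.Adj (f i) (f j) ↔ j = i + 1 ∨ (i = 0 ∧ j + 1 = m))

theorem IC.step {m : ℕ} {f : ℕ → V} (h : IC G (m + 1) f) :
    IC (Cp G (f 0)) m (fun i => f (i + 1)) where
  inj := by
    intro i j hi hj hij
    have := h.inj (i + 1) (j + 1) (by omega) (by omega) hij
    omega
  adj := by
    intro i j hij hj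
    have h0 : ∀ k, k < m → (G.Adj (f 0) (f (k + 1)) ↔ k = 0 ∨ k + 1 = m) := by
      intro k hk
      rw [h.adj 0 (k + 1) (by omega) (by omega)]
      omega
    have hne : f (i + 1) ≠ f (j + 1) := by
      intro h'
      have := h.inj (i + 1) (j + 1) (by omega) (by omega) h'
      omega
    show (G.Adj (f (i + 1)) (f (j + 1)) ∨ (f (i + 1) ≠ f (j + 1) ∧ G.Adj (f 0) (f (i + 1)) ∧
      G.Adj (f 0) (f (j + 1)))) ↔ _
    rw [h.adj (i + 1) (j + 1) (by omega) (by omega), h0 i (by omega), h0 j hj]
    constructor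
    · rintro (h' | ⟨-, h1, h2⟩)
      · omega
      · omega
    · intro h'
      rcases h' with h' | h'
      · exact Or.inl (Or.inl (by omega))
      · exact Or.inr ⟨hne, Or.inl h'.1, Or.inr h'.2⟩

theorem no_six [Finite V] (hA : H629.AccG.Acc G) {f : ℕ → V} (h : IC G 6 f) : False := by
  have hadj : ∀ i j, i < j → j < 6 → (G.Adj (f i) (f j) ↔ j = i + 1 ∨ (i = 0 ∧ j + 1 = 6)) :=
    h.adj
  have hne : ∀ i j, i < j → j < 6 → f i ≠ f j := by
    intro i j hij hj h'
    have := h.inj i j (by omega) hj h'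
    omega
  have a01 : G.Adj (f 0) (f 1) := (hadj 0 1 (by omega) (by omega)).2 (by omega)
  have a12 : G.Adj (f 1) (f 2) := (hadj 1 2 (by omega) (by omega)).2 (by omega)
  have a23 : G.Adj (f 2) (f 3) := (hadj 2 3 (by omega) (by omega)).2 (by omega)
  have a34 : G.Adj (f 3) (f 4) := (hadj 3 4 (by omega) (by omega)).2 (by omega)
  have a45 : G.Adj (f 4) (f 5) := (hadj 4 5 (by omega) (by omega)).2 (by omega)
  have a05 : G.Adj (f 0) (f 5) := (hadj 0 5 (by omega) (by omega)).2 (by omega)
  have n02 : ¬ G.Adj (f 0) (f 2) := by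
    rw [hadj 0 2 (by omega) (by omega)]
    omega
  have n03 : ¬ G.Adj (f 0) (f 3) := by
    rw [hadj 0 3 (by omega) (by omega)]
    omega
  have n04 : ¬ G.Adj (f 0) (f 4) := by
    rw [hadj 0 4 (by omega) (by omega)]
    omega
  have n13 : ¬ G.Adj (f 1) (f 3) := by
    rw [hadj 1 3 (by omega) (by omega)]
    omega
  have n14 : ¬ G.Adj (f 1) (f 4) := by
    rw [hadj 1 4 (by omega) (by omega)]
    omega
  have n24 : ¬ G.Adj (f 2) (f 4) := by
    rw [hadj 2 4 (by omega) (by omega)]
    omega
  have n25 : ¬ G.Adj (f 2) (f 5) := by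
    rw [hadj 2 5 (by omega) (by omega)]
    omega
  have n35 : ¬ G.Adj (f 3) (f 5) := by
    rw [hadj 3 5 (by omega) (by omega)]
    omega
  -- the first completion
  have key : ∀ {w x y : V} {H : SimpleGraph V}, ¬ H.Adj w y → (Cp H w).Adj x y → H.Adj x y := by
    rintro w x y H hy (h' | ⟨-, -, h'⟩)
    · exact h'
    · exact absurd h' hy
  have key' : ∀ {w x y : V} {H : SimpleGraph V}, ¬ H.Adj w x → (Cp H w).Adj x y → H.Adj x y := by
    rintro w x y H hy (h' | ⟨-, h', -⟩)
    · exact h'
    · exact absurd h' hy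
  let G1 := Cp G (f 0)
  have b02 : ¬ G1.Adj (f 2) (f 0) := fun h' => n02 (key' n02 h').symm
  have b35 : ¬ G1.Adj (f 5) (f 3) := fun h' => n35 (key n03 h').symm
  have b25 : ¬ G1.Adj (f 2) (f 5) := fun h' => n25 (key' n02 h')
  have b24 : ¬ G1.Adj (f 2) (f 4) := fun h' => n24 (key n04 h')
  have b14 : ¬ G1.Adj (f 1) (f 4) := fun h' => n14 (key n04 h')
  have b03 : ¬ G1.Adj (f 0) (f 3) := fun h' => n03 (key n03 h')
  have b04 : ¬ G1.Adj (f 0) (f 4) := fun h' => n04 (key n04 h')
  have c0 : ∀ y, G1.Adj (f 0) y → G.Adj (f 0) y := fun y h' => (Cp_adj_self (f 0)).1 h'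
  let G2 := Cp G1 (f 2)
  have hA2 : H629.AccG.Acc G2 := (hA.completion (f 0)).completion (f 2)
  have d0 : ∀ y, G2.Adj (f 0) y → G.Adj (f 0) y := fun y h' => c0 y (key' b02 h')
  have d2 : ∀ y, G2.Adj (f 2) y → G1.Adj (f 2) y := fun y h' => (Cp_adj_self (f 2)).1 h'
  have hCB : CB G2 (f 5) (f 1) (f 3) (f 4) (f 0) (f 2) := by
    refine ⟨Or.inl (Or.inr ⟨(hne 1 5 (by omega) (by omega)).symm, a05, a01⟩),
      Or.inr ⟨hne 1 3 (by omega) (by omega), Or.inl a12.symm, Or.inl a23⟩,
      Or.inl (Or.inl a34), Or.inl (Or.inl a45),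
      fun h' => b35 (key' b25 h'), fun h' => b14 (key b24 h'),
      (hne 3 5 (by omega) (by omega)).symm, hne 1 4 (by omega) (by omega),
      Or.inl (Or.inl a05), Or.inl (Or.inl a01), fun h' => n03 (d0 _ h'), fun h' => n04 (d0 _ h'),
      hne 0 3 (by omega) (by omega), hne 0 4 (by omega) (by omega),
      Or.inl (Or.inl a12.symm), Or.inl (Or.inl a23), fun h' => b25 (d2 _ h'),
      fun h' => b24 (d2 _ h'), hne 2 5 (by omega) (by omega), hne 2 4 (by omega) (by omega),
      ?_, ?_⟩
    · intro y z hy hz hyz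
      exact Or.inl (Or.inr ⟨hyz, d0 y hy, d0 z hz⟩)
    · intro y z hy hz hyz
      exact Or.inr ⟨hyz, d2 y hy, d2 z hz⟩
  exact no_CB' hCB hA2

theorem no_long [Finite V] (m : ℕ) (hA : H629.AccG.Acc G) {f : ℕ → V} (h : IC G (m + 6) f) :
    False := by
  induction m generalizing G f with
  | zero => exact no_six hA h
  | succ m ih =>
      have h1 : IC G (m + 6 + 1) f := by
        have e : m + 1 + 6 = m + 6 + 1 := by omega
        rwa [e] at h
      exact ih (hA.completion (f 0)) h1.step

end Cycles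

/-- **Theorem.** An accessible graph has no induced cycle of length six or more. -/
theorem result {V : Type*} [Finite V] (G : SimpleGraph V) (hG : IsAccessible G) (m : ℕ)
    (hm : 6 ≤ m) : IsEmpty (SimpleGraph.cycleGraph m ↪g G) := by
  refine ⟨fun e => ?_⟩
  obtain ⟨k, rfl⟩ : ∃ k, m = k + 6 := ⟨m - 6, by omega⟩
  have : NeZero (k + 6) := ⟨by omega⟩
  let f : ℕ → V := fun i => e (Fin.ofNat (k + 6) i)
  have hf : ∀ i (hi : i < k + 6), f i = e ⟨i, hi⟩ := by
    intro i hi
    show e _ = e _
    congr 1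
    exact Fin.ext (Nat.mod_eq_of_lt hi)
  refine no_long k (isAccessible_acc hG) (f := f) ⟨?_, ?_⟩
  · intro i j hi hj hij
    rw [hf i hi, hf j hj] at hij
    have := e.injective hij
    exact congrArg Fin.val this
  · intro i j hij hj
    have hi : i < k + 6 := by omega
    rw [hf i hi, hf j hj, e.map_adj_iff, SimpleGraph.cycleGraph_adj']
    have h1 : ((⟨j, hj⟩ : Fin (k + 6)) - ⟨i, hi⟩).val = j - i := by
      rw [Fin.sub_val_of_le (by
        rw [Fin.le_def]
        exact hij.le)]
    have h2 : ((⟨i, hi⟩ : Fin (k + 6)) - ⟨j, hj⟩).val = k + 6 + i - j := by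
      rw [Fin.val_sub]
      show (k + 6 - j + i) % (k + 6) = _
      rw [Nat.mod_eq_of_lt (by omega)]
      omega
    rw [h1, h2]
    omega

end Pool.Agent.Results.MP_12e671_al.NoLongInducedCycle
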